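import Pool.Graph.R_seed8.H135R2.VS.Der

/-!
# Algebraic values of functions with independent gradients
-/

set_option autoImplicit false

namespace Pool.Agent.H488.S

open MvPolynomial

/-- the chain rule in several variables -/
lemma der_mv {τ : Type} [Fintype τ] (D : Derivation ℚ ℂ ℂ) (z : τ → ℂ) (P : MvPolynomial τ ℤ) :
    D (aeval z P) = ∑ j, aeval z (pderiv j P) * D (z j) := by
  classical
  induction P using MvPolynomial.induction_on with
  | C a =>
    simp
  | add p q hp hq =>
    rw [map_add, map_add, hp, hq, ← Finset.sum_add_distrib]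
    refine Finset.sum_congr rfl fun j _ => ?_
    rw [map_add, map_add, add_mul]
  | mul_X p i hp =>
    rw [map_mul, aeval_X, Derivation.leibniz, hp]
    simp only [smul_eq_mul, Derivation.leibniz, map_add, map_mul, aeval_X, pderiv_X, Pi.single_apply]
    have h1 : ∀ j, (aeval z p * aeval z (if i = j then (1 : MvPolynomial τ ℤ) else 0) +
        z i * aeval z (pderiv j p)) * D (z j) =
        (if i = j then aeval z p * D (z j) else 0) + z i * (aeval z (pderiv j p) * D (z j)) := by
      intro j
      split_ifs with h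
      · rw [map_one]; ring
      · rw [map_zero]; ring
    rw [Finset.sum_congr rfl fun j _ => h1 j, Finset.sum_add_distrib, Finset.sum_ite_eq,
      if_pos (Finset.mem_univ i), Finset.mul_sum]

/-- a derivative with respect to a variable which occurs is not zero -/
lemma pderiv_ne {τ : Type} (o : τ) (P : MvPolynomial τ ℤ) (m : τ →₀ ℕ) (hm : P.coeff m ≠ 0)
    (hmo : m o ≠ 0) : pderiv o P ≠ 0 := by
  classical
  intro h0
  have h1 := congrArg (fun Q : MvPolynomial τ ℤ => Q.coeff (m - Finsupp.single o 1)) h0
  simp only [coeff_zero] at h1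
  rw [coeff_pderiv] at h1
  have e1 : m - Finsupp.single o 1 + Finsupp.single o 1 = m := by
    refine tsub_add_cancel_of_le ?_
    rw [Finsupp.single_le_iff]
    omega
  rw [e1] at h1
  rcases mul_eq_zero.1 h1 with h2 | h2
  · exact hm h2
  · omega

/-- derivations which vanish on independent numbers vanish on the numbers algebraic over them -/
lemma der_alg {ε : Type} [Fintype ε] (D : Derivation ℚ ℂ ℂ) (η : ε → ℂ)
    (hη : AlgebraicIndependent ℚ η) (hD : ∀ l, D (η l) = 0) (u : ℂ) :
    ∀ (n : ℕ) (P : MvPolynomial (Option ε) ℤ), P ≠ 0 → P.degreeOf none ≤ n →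
      aeval (fun o : Option ε => o.elim u η) P = 0 → D u = 0 := by
  classical
  intro n
  induction n with
  | zero =>
    intro P hP hn h0
    exfalso
    have hvars : (P.vars : Set (Option ε)) ⊆ Set.range (some : ε → Option ε) := by
      intro o ho
      rcases o with _ | l
      · exfalso
        rw [Finset.mem_coe, mem_vars_iff_mem_support] at ho
        obtain ⟨m, hm, hmo⟩ := ho
        have h4 := (degreeOf_le_iff.1 hn) m hm
        rw [Finsupp.mem_support_iff] at hmo
        omega
      · exact ⟨l, rfl⟩
    obtain ⟨Q, hQ⟩ := exists_rename_eq_of_vars_subset_range P some (Option.some_injective ε) hvars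
    have hQ0 : Q ≠ 0 := fun h => hP (by rw [← hQ, h, map_zero])
    rw [← hQ, aeval_rename] at h0
    have h1 : AlgebraicIndependent ℤ η := hη.restrictScalars (FaithfulSMul.algebraMap_injective ℤ ℚ)
    rw [algebraicIndependent_iff] at h1
    exact hQ0 (h1 Q h0)
  | succ n ih =>
    intro P hP hn h0
    by_cases hd : P.degreeOf none ≤ n
    · exact ih P hP hd h0
    have h1 := der_mv D (fun o : Option ε => o.elim u η) P
    rw [h0, map_zero, Fintype.sum_option] at h1
    simp only [Option.elim_none, Option.elim_some, hD, mul_zero, Finset.sum_const_zero,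
      add_zero] at h1
    rcases mul_eq_zero.1 h1.symm with h2 | h2
    · refine ih (pderiv none P) ?_ ?_ h2
      · have h3 : P.degreeOf none = n + 1 := by omega
        obtain ⟨m, hm, hmo⟩ : ∃ m ∈ P.support, n + 1 ≤ m none := by
          by_contra hcon
          push Not at hcon
          have : P.degreeOf none ≤ n := degreeOf_le_iff.2 fun m hm => by
            have := hcon m hm
            omega
          omega
        exact pderiv_ne none P m (mem_support_iff.1 hm) (by omega)
      · rw [degreeOf_le_iff]
        intro m hm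
        rw [mem_support_iff, coeff_pderiv] at hm
        have h4 := left_ne_zero_of_mul hm
        have h5 := (degreeOf_le_iff.1 hn) _ (mem_support_iff.2 h4)
        simp only [Finsupp.coe_add, Pi.add_apply, Finsupp.single_eq_same] at h5
        omega
    · exact h2

/-- the variables `T` and `X` -/
def em {σ τ ε : Type} : τ ⊕ σ → τ ⊕ (σ ⊕ ε) := Sum.map id Sum.inl

/-- **Algebraic values of functions with independent gradients.** -/
theorem exact_count {σ τ ε ι : Type} [Fintype σ] [Fintype τ] [Fintype ε] [Fintype ι]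
    (z : τ ⊕ (σ ⊕ ε) → ℂ) (hθ : AlgebraicIndependent ℚ fun k : σ ⊕ ε => z (Sum.inr k))
    (a b : ι → MvPolynomial (τ ⊕ (σ ⊕ ε)) ℤ)
    (hb : ∀ i, aeval z (b i) ≠ 0) (halg : ∀ i, ∃ P : MvPolynomial (Option ε) ℤ, P ≠ 0 ∧
      aeval (fun o : Option ε => o.elim (aeval z (a i) / aeval z (b i))
        fun l => z (Sum.inr (Sum.inr l))) P = 0)
    (hind : LinearIndependent ℂ fun (i : ι) (j : τ ⊕ σ) =>
      aeval z (b i * pderiv (em j) (a i) - a i * pderiv (em j) (b i))) :
    Fintype.card ι ≤ Fintype.card τ := by
  classical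
  -- the derivations
  have hD : ∀ k : σ, ∃ D : Derivation ℚ ℂ ℂ, ∀ l : σ ⊕ ε, D (z (Sum.inr l)) =
      if l = Sum.inl k then 1 else 0 :=
    fun k => Pool.Agent.H135R2.VS.exists_der hθ fun l => if l = Sum.inl k then 1 else 0
  choose D hD using hD
  obtain ⟨M, hM⟩ : ∃ M : Matrix ι (τ ⊕ σ) ℂ, M = Matrix.of fun (i : ι) (j : τ ⊕ σ) =>
      aeval z (b i * pderiv (em j) (a i) - a i * pderiv (em j) (b i)) := ⟨_, rfl⟩
  have hrank : M.rank = Fintype.card ι := by
    have h1 : LinearIndependent ℂ M.row := by rw [hM]; exact hind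
    exact h1.rank_matrix
  have hη : AlgebraicIndependent ℚ fun l : ε => z (Sum.inr (Sum.inr l)) :=
    hθ.comp (fun l : ε => (Sum.inr l : σ ⊕ ε)) Sum.inr_injective
  have hDη : ∀ k l, D k (z (Sum.inr (Sum.inr l))) = 0 := by
    intro k l
    rw [hD, if_neg (by simp)]
  -- the kernel
  have hker : ∀ k, M.mulVec (fun j => D k (z (em j))) = 0 := by
    intro k
    funext i
    rw [Pi.zero_apply, Matrix.mulVec, dotProduct, hM]
    simp only [Matrix.of_apply]
    have hsum : ∀ P : MvPolynomial (τ ⊕ (σ ⊕ ε)) ℤ, D k (aeval z P) =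
        ∑ j : τ ⊕ σ, aeval z (pderiv (em j) P) * D k (z (em j)) := by
      intro P
      rw [der_mv, Fintype.sum_sum_type, Fintype.sum_sum_type, Fintype.sum_sum_type]
      simp only [hDη, mul_zero, Finset.sum_const_zero, add_zero]
      rfl
    have h1 : ∑ j, aeval z (b i * pderiv (em j) (a i) - a i * pderiv (em j) (b i)) * D k (z (em j)) =
        aeval z (b i) * D k (aeval z (a i)) - aeval z (a i) * D k (aeval z (b i)) := by
      rw [hsum, hsum, Finset.mul_sum, Finset.mul_sum, ← Finset.sum_sub_distrib]
      refine Finset.sum_congr rfl fun j _ => ?_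
      rw [map_sub, map_mul, map_mul]
      ring
    rw [h1]
    obtain ⟨P, hP, hP0⟩ := halg i
    have h2 := der_alg (D k) _ hη (hDη k) _ _ P hP le_rfl hP0
    have h3 : aeval z (a i) = aeval z (a i) / aeval z (b i) * aeval z (b i) := by
      field_simp [hb i]
    have h4 : D k (aeval z (a i)) = aeval z (a i) / aeval z (b i) * D k (aeval z (b i)) := by
      conv_lhs => rw [h3]
      rw [Derivation.leibniz, h2, smul_zero, add_zero, smul_eq_mul]
    rw [h4]
    field_simp [hb i]
    ring
  have hv : LinearIndependent ℂ fun k : σ => (⟨fun j => D k (z (em j)), by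
      rw [LinearMap.mem_ker, Matrix.mulVecLin_apply]; exact hker k⟩ : LinearMap.ker M.mulVecLin) := by
    rw [Fintype.linearIndependent_iff]
    intro g hg k
    have h1 := congrArg (fun w : LinearMap.ker M.mulVecLin => (w : τ ⊕ σ → ℂ) (Sum.inr k)) hg
    simp only [Submodule.coe_sum, Submodule.coe_smul, Finset.sum_apply, Pi.smul_apply, smul_eq_mul,
      Submodule.coe_zero, Pi.zero_apply, em, Sum.map_inr, hD, Sum.inl.injEq] at h1
    simpa using h1
  have h1 := hv.fintype_card_le_finrank
  have h2 := LinearMap.finrank_range_add_finrank_ker M.mulVecLin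
  rw [Module.finrank_fintype_fun_eq_card, Fintype.card_sum] at h2
  have h3 : Module.finrank ℂ (LinearMap.range M.mulVecLin) = Fintype.card ι := hrank
  omega

end Pool.Agent.H488.S
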