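import Pool.Agent.H488.M.Gen
import Pool.Agent.H488.S.Jac
import Pool.Agent.H596.U.Tr

/-!
# Several rational functions of several arbitrary numbers: the joint measure
-/

set_option autoImplicit false

namespace Pool.Agent.H488.S

open Pool.Agent.H488.M (vl Bd nb lenM_le)
open Pool.Agent.N743.SS (lenM isLenM lenM_eq le_lenM isLen_intCast isLen_pow)

section hom

variable {ρ ε : Type} [Fintype ε]

/-- the homogenised polynomial `b^d P(a / b, X)` -/
noncomputable def homO (d : ℕ) (a b : MvPolynomial ρ ℤ) (e : ε → ρ)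
    (P : MvPolynomial (Option ε) ℤ) : MvPolynomial ρ ℤ :=
  ∑ m ∈ P.support, ((P.coeff m : ℤ) : MvPolynomial ρ ℤ) *
    (a ^ m none * b ^ (d - m none) * ∏ l, MvPolynomial.X (e l) ^ m (some l))

lemma vl_homO (d : ℕ) (a b : MvPolynomial ρ ℤ) (e : ε → ρ) (P : MvPolynomial (Option ε) ℤ)
    (z : ρ → ℂ) (hb : vl z b ≠ 0) (hd : P.degreeOf none ≤ d) :
    vl z (homO d a b e P) = vl z b ^ d *
      vl (fun o : Option ε => o.elim (vl z a / vl z b) fun l => z (e l)) P := by
  classical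
  have hr : vl (fun o : Option ε => o.elim (vl z a / vl z b) fun l => z (e l)) P =
      ∑ m ∈ P.support, ((P.coeff m : ℤ) : ℂ) * ((vl z a / vl z b) ^ m none *
        ∏ l, z (e l) ^ m (some l)) := by
    rw [vl, MvPolynomial.aeval_def, MvPolynomial.eval₂_eq']
    refine Finset.sum_congr rfl fun m _ => ?_
    rw [Fintype.prod_option]
    rfl
  rw [hr, homO, vl, map_sum, Finset.mul_sum]
  refine Finset.sum_congr rfl fun m hm => ?_
  have h1 : m none ≤ d := (MvPolynomial.degreeOf_le_iff.1 hd) m hm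
  rw [map_mul, map_mul, map_mul, map_pow, map_pow, map_prod, map_intCast]
  simp only [map_pow, MvPolynomial.aeval_X]
  have h2 : vl z b ^ d = vl z b ^ (d - m none) * vl z b ^ m none := by
    rw [← pow_add]; congr 1; omega
  change _ = vl z b ^ d * _
  rw [h2, div_pow]
  change ((P.coeff m : ℤ) : ℂ) * (vl z a ^ m none * vl z b ^ (d - m none) * _) = _
  field_simp

lemma deg_homO (d e₀ : ℕ) (a b : MvPolynomial ρ ℤ) (e : ε → ρ) (P : MvPolynomial (Option ε) ℤ)
    (ha : a.totalDegree ≤ e₀) (hb : b.totalDegree ≤ e₀) (hd : ∀ o, P.degreeOf o ≤ d) :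
    (homO d a b e P).totalDegree ≤ d * e₀ + Fintype.card ε * d := by
  classical
  rw [homO]
  refine MvPolynomial.totalDegree_finsetSum_le fun m hm => ?_
  have h1 : ∀ o, m o ≤ d := fun o => (MvPolynomial.degreeOf_le_iff.1 (hd o)) m hm
  have h0 : (((P.coeff m : ℤ) : MvPolynomial ρ ℤ)).totalDegree = 0 := by
    rw [M.intCast_C]; exact MvPolynomial.totalDegree_C _
  have h3 : (∏ l : ε, MvPolynomial.X (R := ℤ) (e l) ^ m (some l)).totalDegree ≤
      Fintype.card ε * d := by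
    refine (MvPolynomial.totalDegree_finsetProd _ _).trans ?_
    rw [← smul_eq_mul, ← Finset.card_univ]
    refine Finset.sum_le_card_nsmul _ _ _ fun l _ => ?_
    refine (MvPolynomial.totalDegree_pow _ _).trans ?_
    rw [MvPolynomial.totalDegree_X, mul_one]
    exact h1 _
  calc _ ≤ (((P.coeff m : ℤ) : MvPolynomial ρ ℤ)).totalDegree +
            (a ^ m none * b ^ (d - m none) * ∏ l, MvPolynomial.X (e l) ^ m (some l)).totalDegree :=
          MvPolynomial.totalDegree_mul _ _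
    _ ≤ 0 + ((a ^ m none * b ^ (d - m none)).totalDegree + Fintype.card ε * d) :=
        Nat.add_le_add h0.le ((MvPolynomial.totalDegree_mul _ _).trans (Nat.add_le_add_left h3 _))
    _ ≤ 0 + ((m none * e₀ + (d - m none) * e₀) + Fintype.card ε * d) := by
        refine Nat.add_le_add_left (Nat.add_le_add_right ?_ _) _
        refine (MvPolynomial.totalDegree_mul _ _).trans (Nat.add_le_add ?_ ?_)
        · exact (MvPolynomial.totalDegree_pow _ _).trans (Nat.mul_le_mul_left _ ha)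
        · exact (MvPolynomial.totalDegree_pow _ _).trans (Nat.mul_le_mul_left _ hb)
    _ = d * e₀ + Fintype.card ε * d := by
        rw [zero_add, ← add_mul]
        congr 2
        have := h1 none
        omega

lemma len_homO (d : ℕ) (a b : MvPolynomial ρ ℤ) (e : ε → ρ) (P : MvPolynomial (Option ε) ℤ)
    (Λ : ℝ) (hΛ : 1 ≤ Λ) (ha : lenM a ≤ Λ) (hb : lenM b ≤ Λ) (H : ℝ) (hH : 0 ≤ H)
    (hP : Bd d H P) : lenM (homO d a b e P) ≤ (nb (Option ε) d * Λ ^ d) * H := by
  classical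
  have hL := isLenM (ι := ρ)
  rw [homO]
  refine (hL.sum _ _).trans ?_
  have h1 : ∀ m ∈ P.support, lenM (((P.coeff m : ℤ) : MvPolynomial ρ ℤ) *
      (a ^ m none * b ^ (d - m none) * ∏ l, MvPolynomial.X (e l) ^ m (some l))) ≤
      |((P.coeff m : ℤ) : ℝ)| * Λ ^ d := by
    intro m hm
    have h2 : m none ≤ d := (MvPolynomial.degreeOf_le_iff.1 (hP.1 none)) m hm
    refine (hL.mul _ _).trans (mul_le_mul (isLen_intCast hL _) ?_ (hL.nonneg _) (abs_nonneg _))
    have e1 : Λ ^ d = Λ ^ m none * Λ ^ (d - m none) * 1 := by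
      rw [mul_one, ← pow_add]; congr 1; omega
    rw [e1]
    refine (hL.mul _ _).trans (mul_le_mul ((hL.mul _ _).trans ?_) ?_ (hL.nonneg _) (by positivity))
    · exact mul_le_mul ((isLen_pow hL a _).trans (pow_le_pow_left₀ (hL.nonneg _) ha _))
        ((isLen_pow hL b _).trans (pow_le_pow_left₀ (hL.nonneg _) hb _)) (hL.nonneg _)
        (by positivity)
    · have h4 : (∏ l, MvPolynomial.X (e l) ^ m (some l) : MvPolynomial ρ ℤ) =
          MvPolynomial.monomial (∑ l, Finsupp.single (e l) (m (some l))) 1 := by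
        rw [MvPolynomial.monomial_sum_one]
        refine Finset.prod_congr rfl fun l _ => ?_
        rw [MvPolynomial.X_pow_eq_monomial]
      rw [h4, lenM_eq _ {∑ l, Finsupp.single (e l) (m (some l))} MvPolynomial.support_monomial_subset,
        Finset.sum_singleton, MvPolynomial.coeff_monomial, if_pos rfl]
      simp
  refine (Finset.sum_le_sum h1).trans ?_
  rw [← Finset.sum_mul]
  have h5 := lenM_le d P H hH hP
  rw [lenM] at h5
  calc _ ≤ (nb (Option ε) d * H) * Λ ^ d := mul_le_mul_of_nonneg_right h5 (by positivity)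
    _ = _ := by ring

end hom

variable {σ τ ε ι : Type} [Fintype σ] [Fintype τ] [Fintype ε] [Fintype ι]

/-- the gradient of `a / b` with respect to the variables in `τ ⊕ σ`, multiplied by `b ^ 2` -/
noncomputable def gr (z : τ ⊕ (σ ⊕ ε) → ℂ) (a b : MvPolynomial (τ ⊕ (σ ⊕ ε)) ℤ) (j : τ ⊕ σ) : ℂ :=
  MvPolynomial.aeval z (b * MvPolynomial.pderiv (em j) a - a * MvPolynomial.pderiv (em j) b)

/-- the functions `a i / b i` are defined at `z`, and any `card τ + 1` of their gradients are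
linearly independent -/
def Gp (z : τ ⊕ (σ ⊕ ε) → ℂ) (a b : ι → MvPolynomial (τ ⊕ (σ ⊕ ε)) ℤ) : Prop :=
  (∀ i, vl z (b i) ≠ 0) ∧ ∀ S : Finset ι, S.card = Fintype.card τ + 1 →
    LinearIndependent ℂ fun i : S => gr z (a i) (b i)

lemma cont_vl {ρ : Type} (P : MvPolynomial ρ ℤ) : Continuous fun z : ρ → ℂ => vl z P := by
  have h1 : (fun z : ρ → ℂ => vl z P) = fun z =>
      MvPolynomial.eval z (MvPolynomial.map (Int.castRingHom ℂ) P) := by
    funext z
    rw [vl, MvPolynomial.aeval_def, MvPolynomial.eval_map]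
    rfl
  rw [h1]
  exact MvPolynomial.continuous_eval _

/-- general position is an open condition -/
lemma gp_open (z : τ ⊕ (σ ⊕ ε) → ℂ) (a b : ι → MvPolynomial (τ ⊕ (σ ⊕ ε)) ℤ) (h : Gp z a b) :
    ∃ δ : ℝ, 0 < δ ∧ ∀ z' : τ ⊕ (σ ⊕ ε) → ℂ, (∀ j, ‖z' j - z j‖ ≤ δ) → Gp z' a b := by
  classical
  have h1 : ∀ᶠ z' in nhds z, ∀ i, vl z' (b i) ≠ 0 := by
    rw [Filter.eventually_all]
    exact fun i => (cont_vl (b i)).continuousAt.eventually_ne (h.1 i)
  have h2 : ∀ᶠ z' in nhds z, ∀ S : Finset ι, S.card = Fintype.card τ + 1 →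
      LinearIndependent ℂ fun i : S => gr z' (a i) (b i) := by
    rw [Filter.eventually_all]
    intro S
    by_cases hS : S.card = Fintype.card τ + 1
    · have hc : Continuous fun z' : τ ⊕ (σ ⊕ ε) → ℂ => fun i : S => gr z' (a i) (b i) := by
        refine continuous_pi fun i => continuous_pi fun j => ?_
        exact cont_vl _
      have h3 : ∀ᶠ g in nhds (fun i : S => gr z (a i) (b i)), LinearIndependent ℂ g :=
        LinearIndependent.eventually (h.2 S hS)
      filter_upwards [hc.continuousAt.eventually h3] with z' hz' _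
      exact hz'
    · exact Filter.Eventually.of_forall fun _ h => absurd h hS
  obtain ⟨δ, hδ, h3⟩ := Metric.eventually_nhds_iff.1 (h1.and h2)
  refine ⟨δ / 2, by positivity, fun z' hz' => ?_⟩
  have h4 : dist z' z < δ := by
    refine lt_of_le_of_lt ((dist_pi_le_iff (by positivity)).2 fun j => ?_) (half_lt_self hδ)
    rw [dist_eq_norm]
    exact hz' j
  exact h3 h4

omit [Fintype σ] in
lemma meas_conv {θ : σ → ℂ} (h : M.Meas θ) : H596.U.Meas θ := by
  intro d
  obtain ⟨κ, c, hc, h⟩ := h d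
  refine ⟨c, hc, κ, fun H hH P hd hH' h0 => ?_⟩
  rw [mul_comm]
  refine h P (fun hP => h0 (by rw [hP, map_zero])) H hH ⟨fun o => ?_, hH'⟩
  exact (MvPolynomial.degreeOf_le_totalDegree P o).trans hd

lemma algInd {θ : σ → ℂ} (h : M.Meas θ) : AlgebraicIndependent ℚ θ := by
  have hZQ : Algebra.IsAlgebraic ℤ ℚ := IsLocalization.isAlgebraic (R := ℤ) (S := ℚ) (nonZeroDivisors ℤ)
  suffices H : AlgebraicIndependent ℤ θ from H.extendScalars ℚ
  rw [algebraicIndependent_iff]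
  intro P hP
  by_contra h0
  exact M.meas_val h P h0 hP

/-- the value of the function `a / b` -/
noncomputable def fr (z : τ ⊕ (σ ⊕ ε) → ℂ) (a b : MvPolynomial (τ ⊕ (σ ⊕ ε)) ℤ) : ℂ :=
  vl z a / vl z b

/-- the point `(u, η)` -/
def pu (z : τ ⊕ (σ ⊕ ε) → ℂ) (u : ℂ) : Option ε → ℂ :=
  fun o => o.elim u fun l => z (Sum.inr (Sum.inr l))

/-- **The joint measure for several rational functions.** -/
theorem joint (θ : σ ⊕ ε → ℂ) (hθ : M.Meas θ) (a b : ι → MvPolynomial (τ ⊕ (σ ⊕ ε)) ℤ) (d : ℕ) :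
    ∃ k : ℕ, ∀ t : τ → ℂ, Gp (Sum.elim t θ) a b → ∃ H₀ : ℝ, 1 ≤ H₀ ∧ ∀ H : ℝ, H₀ ≤ H →
      ∀ S : Finset ι, S.card = Fintype.card τ + 1 → ∀ P : ι → MvPolynomial (Option ε) ℤ,
      (∀ i ∈ S, P i ≠ 0 ∧ Bd d H (P i)) → ∃ i ∈ S, 1 < H ^ k *
        ‖vl (pu (Sum.elim t θ) (fr (Sum.elim t θ) (a i) (b i))) (P i)‖ := by
  classical
  have hL := isLenM (ι := τ ⊕ (σ ⊕ ε))
  obtain ⟨Λ, hΛ⟩ : ∃ Λ : ℝ, Λ = 1 + ∑ i, (lenM (a i) + lenM (b i)) := ⟨_, rfl⟩
  have hsum : ∀ i, lenM (a i) + lenM (b i) ≤ ∑ i, (lenM (a i) + lenM (b i)) := fun i =>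
    Finset.single_le_sum (f := fun i => lenM (a i) + lenM (b i))
      (fun i _ => add_nonneg (hL.nonneg _) (hL.nonneg _)) (Finset.mem_univ i)
  have hsum0 : 0 ≤ ∑ i, (lenM (a i) + lenM (b i)) :=
    Finset.sum_nonneg fun i _ => add_nonneg (hL.nonneg _) (hL.nonneg _)
  have hΛ1 : 1 ≤ Λ := by rw [hΛ]; linarith
  have haΛ : ∀ i, lenM (a i) ≤ Λ := fun i => by
    have := hsum i; have := hL.nonneg (b i); rw [hΛ]; linarith
  have hbΛ : ∀ i, lenM (b i) ≤ Λ := fun i => by
    have := hsum i; have := hL.nonneg (a i); rw [hΛ]; linarith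
  obtain ⟨C, hC⟩ : ∃ C : ℝ, C = nb (Option ε) d * Λ ^ d := ⟨_, rfl⟩
  have hC1 : 1 ≤ C := by
    rw [hC]
    have h1 : (1 : ℝ) ≤ nb (Option ε) d := by exact_mod_cast M.one_le_nb d
    exact one_le_mul_of_one_le_of_one_le h1 (one_le_pow₀ hΛ1)
  -- the total degree
  obtain ⟨e, he⟩ : ∃ e : ℕ, ∀ i, (a i).totalDegree ≤ e ∧ (b i).totalDegree ≤ e := by
    refine ⟨∑ i, ((a i).totalDegree + (b i).totalDegree), fun i => ?_⟩
    have h1 : (a i).totalDegree + (b i).totalDegree ≤ ∑ i, ((a i).totalDegree + (b i).totalDegree) :=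
      Finset.single_le_sum (f := fun i => (a i).totalDegree + (b i).totalDegree)
        (fun _ _ => Nat.zero_le _) (Finset.mem_univ i)
    omega
  obtain ⟨E, hE⟩ : ∃ E : ε → τ ⊕ (σ ⊕ ε), E = fun l => Sum.inr (Sum.inr l) := ⟨_, rfl⟩
  obtain ⟨k₁, htr⟩ := H596.U.transfer (τ := τ) (meas_conv hθ) (d * e + Fintype.card ε * d) 1 1
  refine ⟨k₁ + 1, fun t ht => ?_⟩
  obtain ⟨z, hz⟩ : ∃ z : τ ⊕ (σ ⊕ ε) → ℂ, z = Sum.elim t θ := ⟨_, rfl⟩
  rw [← hz] at ht ⊢
  obtain ⟨δ, hδ, hop⟩ := gp_open z a b ht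
  obtain ⟨L, hLd⟩ : ∃ L : ℝ, L = 1 + ∑ i, ‖vl z (b i)‖ ^ d := ⟨_, rfl⟩
  have hL1 : 1 ≤ L := by
    rw [hLd]
    have : 0 ≤ ∑ i, ‖vl z (b i)‖ ^ d := Finset.sum_nonneg fun _ _ => by positivity
    linarith
  have hbL : ∀ i, ‖vl z (b i)‖ ^ d ≤ L := fun i => by
    have := Finset.single_le_sum (f := fun i => ‖vl z (b i)‖ ^ d) (fun i _ => by positivity)
      (Finset.mem_univ i)
    rw [hLd]; linarith
  obtain ⟨T, hT⟩ : ∃ T : ℝ, T = ∑ j, ‖t j‖ := ⟨_, rfl⟩
  have hTj : ∀ j, ‖t j‖ ≤ T := fun j => by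
    rw [hT]; exact Finset.single_le_sum (f := fun j => ‖t j‖) (fun _ _ => norm_nonneg _)
      (Finset.mem_univ j)
  have hT0 : 0 ≤ T := by rw [hT]; exact Finset.sum_nonneg fun _ _ => norm_nonneg _
  refine ⟨2 + T + 1 / δ + L * C ^ k₁, ?_, fun H hH S hS P hP => ?_⟩
  · have : 0 < 1 / δ := by positivity
    have : 0 < L * C ^ k₁ := by positivity
    linarith
  have h1δ : 0 < 1 / δ := by positivity
  have hLC : 0 < L * C ^ k₁ := by positivity
  have hH2 : 2 ≤ H := by linarith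
  have hH0 : 0 < H := by linarith
  have hCH : H ≤ C * H := le_mul_of_one_le_left hH0.le hC1
  by_contra hcon
  push Not at hcon
  obtain ⟨t', ht', hP'⟩ := htr (C * H) (by linarith) t (fun j => by
    rw [pow_one]; exact (hTj j).trans (by linarith))
  have hz' : ∀ j, ‖(Sum.elim t' θ : τ ⊕ (σ ⊕ ε) → ℂ) j - z j‖ ≤ δ := by
    rintro (j | j)
    · rw [hz]
      simp only [Sum.elim_inl]
      have h1 := ht' j
      rw [pow_one] at h1
      have h2 : 1 / δ ≤ C * H := by linarith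
      rw [div_le_iff₀ hδ] at h2
      by_contra h3
      push Not at h3
      have h4 : C * H * δ < C * H * ‖t' j - t j‖ := mul_lt_mul_of_pos_left h3 (by linarith)
      linarith
    · rw [hz]
      simp only [Sum.elim_inr, sub_self, norm_zero]
      exact hδ.le
  have hgp := hop _ hz'
  have hzero : ∀ i ∈ S, ∃ Q : MvPolynomial (Option ε) ℤ, Q ≠ 0 ∧ MvPolynomial.aeval
      (fun o : Option ε => o.elim (MvPolynomial.aeval (Sum.elim t' θ : τ ⊕ (σ ⊕ ε) → ℂ) (a i) /
        MvPolynomial.aeval (Sum.elim t' θ : τ ⊕ (σ ⊕ ε) → ℂ) (b i))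
        fun l => (Sum.elim t' θ : τ ⊕ (σ ⊕ ε) → ℂ) (Sum.inr (Sum.inr l))) Q = 0 := by
    intro i hi
    have hPi := hP i hi
    refine ⟨P i, hPi.1, ?_⟩
    have h1 := (hP' (homO d (a i) (b i) E (P i))
      (deg_homO d e (a i) (b i) E (P i) (he i).1 (he i).2 hPi.2.1) (fun m =>
      (le_lenM _ m).trans (by
        rw [hC]
        exact len_homO d (a i) (b i) E (P i) Λ hΛ1 (haΛ i) (hbΛ i) H hH0.le hPi.2))).2 (by
      have h2 := hcon i hi
      have h3 := vl_homO d (a i) (b i) E (P i) z (ht.1 i) (hPi.2.1 none)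
      rw [← hz]
      change ‖vl z (homO d (a i) (b i) E (P i))‖ * (C * H) ^ k₁ ≤ 1
      rw [h3, norm_mul, norm_pow, mul_pow]
      have hpu : (fun o : Option ε => o.elim (vl z (a i) / vl z (b i)) fun l => z (E l)) =
          pu z (fr z (a i) (b i)) := by
        rw [hE]; rfl
      rw [hpu]
      obtain ⟨y, hy⟩ : ∃ y : ℝ, y = ‖vl (pu z (fr z (a i) (b i))) (P i)‖ := ⟨_, rfl⟩
      rw [← hy] at h2 ⊢
      have hε0 : 0 ≤ y := by rw [hy]; exact norm_nonneg _
      have h5 : H * (‖vl z (b i)‖ ^ d * y * (C ^ k₁ * H ^ k₁)) ≤ H * 1 := by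
        calc H * (‖vl z (b i)‖ ^ d * y * (C ^ k₁ * H ^ k₁)) =
              ‖vl z (b i)‖ ^ d * C ^ k₁ * (H ^ (k₁ + 1) * y) := by rw [pow_succ]; ring
          _ ≤ L * C ^ k₁ * 1 := by
              refine mul_le_mul (mul_le_mul_of_nonneg_right (hbL i) (by positivity)) h2
                (by positivity) (by positivity)
          _ ≤ H * 1 := by linarith
      exact le_of_mul_le_mul_left h5 hH0)
    have h2 : vl (Sum.elim t' θ) (homO d (a i) (b i) E (P i)) = 0 := h1
    rw [vl_homO d (a i) (b i) E (P i) _ (hgp.1 i) (hPi.2.1 none)] at h2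
    rcases mul_eq_zero.1 h2 with h3 | h3
    · exact absurd h3 (pow_ne_zero _ (hgp.1 i))
    · rw [hE] at h3
      exact h3
  have h6 := exact_count (ι := S) (Sum.elim t' θ) (by
      have := algInd hθ
      exact this) (fun i => a i) (fun i => b i) (fun i => hgp.1 i) (fun i => hzero i i.2) (hgp.2 S hS)
  rw [Fintype.card_coe, hS] at h6
  omega

end Pool.Agent.H488.S
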