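import Pool.Agent.H488.S.Joint

/-!
# The dichotomy of scales for several arbitrary numbers
-/

set_option autoImplicit false

namespace Pool.Agent.H488.S

open Pool.Agent.H488.M (vl Bd nb nf small_factor Sep sep_pt pt vl_mul vl_assoc)

variable {σ τ ε ι : Type} [Fintype σ] [Fintype τ] [Fintype ε] [Fintype ι]

/-- the indices of the numbers which are near at the scale `H` -/
def Nrs (z : τ ⊕ (σ ⊕ ε) → ℂ) (a b : ι → MvPolynomial (τ ⊕ (σ ⊕ ε)) ℤ) (d w : ℕ) (H : ℝ) : Set ι :=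
  {i | ∃ P : MvPolynomial (Option ε) ℤ, P ≠ 0 ∧ Bd d H P ∧
    ‖vl (pu z (fr z (a i) (b i))) P‖ ≤ 1 / H ^ w}

/-- the number with the index `i` is algebraic of degree at most `d` over `ℚ(η)` -/
def Als (z : τ ⊕ (σ ⊕ ε) → ℂ) (a b : ι → MvPolynomial (τ ⊕ (σ ⊕ ε)) ℤ) (d : ℕ) (i : ι) : Prop :=
  ∃ P : MvPolynomial (Option ε) ℤ, P ≠ 0 ∧ (∀ o, P.degreeOf o ≤ d) ∧
    vl (pu z (fr z (a i) (b i))) P = 0

/-- **The dichotomy of scales.** -/
theorem dichS (θ : σ ⊕ ε → ℂ) (hθ : M.Meas θ) (a b : ι → MvPolynomial (τ ⊕ (σ ⊕ ε)) ℤ)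
    (d A : ℕ) : ∃ w : ℕ, ∀ t : τ → ℂ, Gp (Sum.elim t θ) a b → ∃ H₀ : ℝ, 1 ≤ H₀ ∧ ∀ H : ℝ, H₀ ≤ H →
      (Nrs (Sum.elim t θ) a b d w H).ncard ≤ Fintype.card τ ∧
      ((Nrs (Sum.elim t θ) a b d w H).ncard = Fintype.card τ →
        ((∀ i ∈ Nrs (Sum.elim t θ) a b d w H, Als (Sum.elim t θ) a b d i) ∧
          ∀ Y : ℝ, H ≤ Y → Nrs (Sum.elim t θ) a b d w Y ⊆ Nrs (Sum.elim t θ) a b d w H) ∨
        ∃ Z : ℝ, H ≤ Z ∧
          (∀ Y : ℝ, H ≤ Y → Y ≤ Z →
            Nrs (Sum.elim t θ) a b d w Y ⊆ Nrs (Sum.elim t θ) a b d w H) ∧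
          ∀ Y : ℝ, Z < Y → Y ≤ Z ^ A →
            (Nrs (Sum.elim t θ) a b d w Y).ncard < Fintype.card τ) := by
  classical
  obtain ⟨k₁, hj⟩ := joint θ hθ a b d
  have hη : M.Meas fun l : ε => θ (Sum.inr l) := hθ.comp Sum.inr Sum.inr_injective
  obtain ⟨κ₂, hsep⟩ := sep_pt (fun l : ε => θ (Sum.inr l)) hη d
  obtain ⟨B, hB, hfac⟩ := small_factor (Option ε) d
  obtain ⟨F, hF⟩ : ∃ F : ℕ, F = nf (Option ε) d := ⟨_, rfl⟩
  obtain ⟨W, hW⟩ : ∃ W : ℕ, W = A * k₁ + A * κ₂ + k₁ + κ₂ + 1 := ⟨_, rfl⟩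
  refine ⟨W * F + 1, fun t ht => ?_⟩
  obtain ⟨z, hz⟩ : ∃ z : τ ⊕ (σ ⊕ ε) → ℂ, z = Sum.elim t θ := ⟨_, rfl⟩
  obtain ⟨h₁, hh₁, hj⟩ := hj t ht
  rw [← hz] at hj ht ⊢
  -- the bound for the numbers
  obtain ⟨T, hT⟩ : ∃ T : ℝ, T = ∑ i, ‖fr z (a i) (b i)‖ := ⟨_, rfl⟩
  have hTi : ∀ i, ‖fr z (a i) (b i)‖ ≤ T := fun i => by
    rw [hT]
    exact Finset.single_le_sum (f := fun i => ‖fr z (a i) (b i)‖) (fun _ _ => norm_nonneg _)
      (Finset.mem_univ i)
  obtain ⟨c₂, hc₂, hsep⟩ := hsep T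
  have hsep' : ∀ i, Sep (pu z (fr z (a i) (b i))) d κ₂ c₂ := fun i => by
    have := hsep _ (hTi i)
    have e1 : (pu z (fr z (a i) (b i)) : Option ε → ℂ) =
        pt (fr z (a i) (b i)) (fun l : ε => θ (Sum.inr l)) := by
      rw [hz]; rfl
    rw [e1]
    exact this
  obtain ⟨H₀, hH₀⟩ : ∃ H₀ : ℝ, H₀ = 2 + h₁ + B ^ k₁ + B ^ κ₂ / c₂ := ⟨_, rfl⟩
  have hq1 : 0 < B ^ k₁ := by positivity
  have hq2 : 0 < B ^ κ₂ / c₂ := by positivity
  obtain ⟨N, hN⟩ : ∃ N : ℝ → Set ι, N = fun H => Nrs z a b d (W * F + 1) H := ⟨_, rfl⟩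
  have hN' : ∀ H, Nrs z a b d (W * F + 1) H = N H := fun H => by rw [hN]
  -- small factors
  have key : ∀ (Y : ℝ), H₀ ≤ Y → ∀ i ∈ N Y, ∃ P : MvPolynomial (Option ε) ℤ, P ≠ 0 ∧ Bd d Y P ∧
      ∃ p, Irreducible p ∧ p ∣ P ∧ Bd d (B * Y) p ∧
        ‖vl (pu z (fr z (a i) (b i))) p‖ < 1 / Y ^ W := by
    intro Y hY i hi
    rw [hN] at hi
    obtain ⟨P, hP, hPB, hs⟩ := hi
    have hY1 : 1 < Y := by linarith
    have hY0 : 0 < Y := by linarith
    refine ⟨P, hP, hPB, ?_⟩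
    refine hfac _ P hP Y hY0.le hPB (1 / Y ^ W) (by positivity)
      (by rw [div_le_one (by positivity)]; exact one_le_pow₀ hY1.le) ?_
    rw [← hF]
    calc ‖vl (pu z (fr z (a i) (b i))) P‖ ≤ 1 / Y ^ (W * F + 1) := hs
      _ < 1 / Y ^ (W * F) := by
          refine one_div_lt_one_div_of_lt (by positivity) ?_
          rw [pow_succ]
          exact lt_mul_of_one_lt_right (by positivity) hY1
      _ = (1 / Y ^ W) ^ F := by rw [div_pow, one_pow, ← pow_mul]
  -- an extension of `N H` by one element is impossible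
  have ext : ∀ (Y : ℝ), H₀ ≤ Y → ∀ S : Finset ι, S.card = Fintype.card τ →
      ∀ p : ι → MvPolynomial (Option ε) ℤ, (∀ i ∈ S, p i ≠ 0 ∧ Bd d (B * Y) (p i) ∧
        (B * Y) ^ k₁ * ‖vl (pu z (fr z (a i) (b i))) (p i)‖ ≤ 1) → N Y ⊆ S := by
    intro Y hY S hS p hp j hjY
    have hY1 : 1 ≤ Y := by linarith
    by_contra hjS
    obtain ⟨P, hP, hPB, q, hq, -, hqB, hqs⟩ := key Y hY j hjY
    have hjS' : j ∉ S := hjS
    obtain ⟨i, hi, hlt⟩ := hj (B * Y) (by
        have : Y ≤ B * Y := le_mul_of_one_le_left (by linarith) hB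
        linarith) (insert j S) (by rw [Finset.card_insert_of_notMem hjS', hS])
      (fun i => if i = j then q else p i) (fun i hi => by
        by_cases hij : i = j
        · simp only [hij, if_true]
          exact ⟨hq.ne_zero, hqB⟩
        · simp only [hij, if_false]
          have := hp i (Finset.mem_of_mem_insert_of_ne hi hij)
          exact ⟨this.1, this.2.1⟩)
    by_cases hij : i = j
    · rw [hij] at hlt
      simp only [if_true] at hlt
      have h1 : (B * Y) ^ k₁ * ‖vl (pu z (fr z (a j) (b j))) q‖ ≤ 1 := by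
        calc (B * Y) ^ k₁ * ‖vl (pu z (fr z (a j) (b j))) q‖ ≤ (B * Y) ^ k₁ * (1 / Y ^ W) :=
              mul_le_mul_of_nonneg_left hqs.le (by positivity)
          _ ≤ (B * Y) ^ k₁ * (1 / Y ^ (k₁ + 1)) := by
              refine mul_le_mul_of_nonneg_left ?_ (by positivity)
              exact one_div_le_one_div_of_le (by positivity) (pow_le_pow_right₀ hY1 (by omega))
          _ = B ^ k₁ / Y := by rw [mul_pow, pow_succ]; field_simp
          _ ≤ 1 := by rw [div_le_one (by linarith)]; linarith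
      linarith
    · simp only [hij, if_false] at hlt
      have := (hp i (Finset.mem_of_mem_insert_of_ne hi hij)).2.2
      linarith
  -- the first assertion
  have first : ∀ (Y : ℝ), H₀ ≤ Y → (N Y).ncard ≤ Fintype.card τ := by
    intro Y hY
    by_contra hcon
    push Not at hcon
    have hfin : (N Y).Finite := Set.toFinite _
    obtain ⟨S, hSN, hS⟩ : ∃ S ⊆ hfin.toFinset, S.card = Fintype.card τ := by
      apply Finset.exists_subset_card_eq
      rw [← Set.ncard_eq_toFinset_card _ hfin]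
      exact hcon.le
    have hSN' : ∀ i ∈ S, i ∈ N Y := fun i hi => by
      have := hSN hi
      rwa [Set.Finite.mem_toFinset] at this
    have hY1 : 1 ≤ Y := by linarith
    have hch : ∀ i, ∃ p : MvPolynomial (Option ε) ℤ, i ∈ S → (p ≠ 0 ∧ Bd d (B * Y) p ∧
        (B * Y) ^ k₁ * ‖vl (pu z (fr z (a i) (b i))) p‖ ≤ 1) := by
      intro i
      by_cases hi : i ∈ S
      · obtain ⟨P, hP, hPB, q, hq, -, hqB, hqs⟩ := key Y hY i (hSN' i hi)
        refine ⟨q, fun _ => ⟨hq.ne_zero, hqB, ?_⟩⟩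
        calc (B * Y) ^ k₁ * ‖vl (pu z (fr z (a i) (b i))) q‖ ≤ (B * Y) ^ k₁ * (1 / Y ^ W) :=
              mul_le_mul_of_nonneg_left hqs.le (by positivity)
          _ ≤ (B * Y) ^ k₁ * (1 / Y ^ (k₁ + 1)) := by
              refine mul_le_mul_of_nonneg_left ?_ (by positivity)
              exact one_div_le_one_div_of_le (by positivity) (pow_le_pow_right₀ hY1 (by omega))
          _ = B ^ k₁ / Y := by rw [mul_pow, pow_succ]; field_simp
          _ ≤ 1 := by rw [div_le_one (by linarith)]; linarith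
      · exact ⟨0, fun h => absurd h hi⟩
    choose p hp using hch
    have h1 := ext Y hY S hS p hp
    have h2 : (N Y).ncard ≤ S.card := by
      rw [← Set.ncard_coe_finset]
      exact Set.ncard_le_ncard h1
    omega
  refine ⟨H₀, by linarith, fun H hH => ?_⟩
  simp only [hN']
  refine ⟨first H hH, fun hcard => ?_⟩
  have hfin : (N H).Finite := Set.toFinite _
  obtain ⟨S, hSd⟩ : ∃ S : Finset ι, S = hfin.toFinset := ⟨_, rfl⟩
  have hSN : ∀ i, i ∈ S ↔ i ∈ N H := fun i => by rw [hSd, Set.Finite.mem_toFinset]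
  have hS : S.card = Fintype.card τ := by
    rw [hSd, ← Set.ncard_eq_toFinset_card _ hfin, hcard]
  have hSNset : (S : Set ι) = N H := Set.ext hSN
  have hch : ∀ i, ∃ P p : MvPolynomial (Option ε) ℤ, i ∈ S → (P ≠ 0 ∧ Bd d H P ∧ Irreducible p ∧
      p ∣ P ∧ Bd d (B * H) p ∧ ‖vl (pu z (fr z (a i) (b i))) p‖ < 1 / H ^ W) := by
    intro i
    by_cases hi : i ∈ S
    · obtain ⟨P, hP, hPB, q, hq, hqP, hqB, hqs⟩ := key H hH i ((hSN i).1 hi)
      exact ⟨P, q, fun _ => ⟨hP, hPB, hq, hqP, hqB, hqs⟩⟩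
    · exact ⟨0, 0, fun h => absurd h hi⟩
  choose P p hp using hch
  obtain ⟨e, he⟩ : ∃ e : ι → ℝ, e = fun i => ‖vl (pu z (fr z (a i) (b i))) (p i)‖ := ⟨_, rfl⟩
  have he0 : ∀ i, 0 ≤ e i := fun i => by rw [he]; exact norm_nonneg _
  have hH1 : 1 ≤ H := by linarith
  have between : ∀ Y : ℝ, H ≤ Y → (∀ i ∈ S, (B * Y) ^ k₁ * e i ≤ 1) → N Y ⊆ N H := by
    intro Y hHY hle
    rw [← hSNset]
    refine ext Y (hH.trans hHY) S hS p fun i hi => ⟨(hp i hi).2.2.1.ne_zero, ?_, ?_⟩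
    · exact (hp i hi).2.2.2.2.1.mono (mul_le_mul_of_nonneg_left hHY (by linarith))
    · have := hle i hi
      rw [he] at this
      exact this
  by_cases hall : ∀ i ∈ S, e i = 0
  · left
    refine ⟨fun i hi => ?_, fun Y hHY => between Y hHY fun i hi => ?_⟩
    · have hi' := (hSN i).2 hi
      obtain ⟨hP, hPB, hpi, ⟨g, hg⟩, -, -⟩ := hp i hi'
      refine ⟨P i, hP, hPB.1, ?_⟩
      have h3 := hall i hi'
      rw [he] at h3
      simp only [norm_eq_zero] at h3
      rw [hg, vl_mul, h3, zero_mul]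
    · rw [hall i hi, mul_zero]; exact zero_le_one
  · right
    push Not at hall
    obtain ⟨i₁, hi₁, hne₁⟩ := hall
    obtain ⟨i₀, hi₀, hmax⟩ := Finset.exists_max_image S e ⟨i₁, hi₁⟩
    have hpos : 0 < e i₀ := lt_of_lt_of_le (lt_of_le_of_ne (he0 i₁) (Ne.symm hne₁)) (hmax i₁ hi₁)
    have hWpos : W ≠ 0 := by omega
    obtain ⟨Z, hZ⟩ : ∃ Z : ℝ, Z = (1 / e i₀) ^ ((W : ℝ)⁻¹) := ⟨_, rfl⟩
    have hZ0 : 0 < Z := by rw [hZ]; positivity
    have hZW : Z ^ W = 1 / e i₀ := by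
      rw [hZ]; exact Real.rpow_inv_natCast_pow (by positivity) hWpos
    have hpZ : e i₀ = 1 / Z ^ W := by rw [hZW]; simp
    have he₀ : e i₀ < 1 / H ^ W := by
      have := (hp i₀ hi₀).2.2.2.2.2
      rw [he]
      exact this
    have hHZ : H ≤ Z := by
      by_contra hcon
      push Not at hcon
      have h3 : Z ^ W < H ^ W := pow_lt_pow_left₀ hcon hZ0.le hWpos
      have h4 : 1 / H ^ W < 1 / Z ^ W := one_div_lt_one_div_of_lt (by positivity) h3
      rw [← hpZ] at h4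
      linarith
    have hZ1 : 1 ≤ Z := by linarith
    refine ⟨Z, hHZ, fun Y hHY hYZ => between Y hHY fun i hi => ?_, fun Y hZY hYA => ?_⟩
    · have hY1 : 1 ≤ Y := by linarith
      calc (B * Y) ^ k₁ * e i ≤ (B * Y) ^ k₁ * (1 / Y ^ (k₁ + 1)) := by
            refine mul_le_mul_of_nonneg_left ?_ (by positivity)
            refine (hmax i hi).trans ?_
            rw [hpZ]
            refine one_div_le_one_div_of_le (by positivity) ?_
            calc Y ^ (k₁ + 1) ≤ Y ^ W := pow_le_pow_right₀ hY1 (by omega)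
              _ ≤ Z ^ W := pow_le_pow_left₀ (by linarith) hYZ _
        _ = B ^ k₁ / Y := by rw [mul_pow, pow_succ]; field_simp
        _ ≤ 1 := by rw [div_le_one (by linarith)]; linarith
    · have hY₀ : H₀ ≤ Y := by linarith
      have hY1 : 1 ≤ Y := by linarith
      have hHY : H ≤ Y := by linarith
      have hsub : N Y ⊆ N H := by
        refine between Y hHY fun i hi => ?_
        calc (B * Y) ^ k₁ * e i ≤ (B * Z ^ A) ^ k₁ * (1 / Z ^ (A * k₁ + 1)) := by
              refine mul_le_mul ?_ ?_ (he0 i) (by positivity)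
              · exact pow_le_pow_left₀ (by positivity)
                  (mul_le_mul_of_nonneg_left hYA (by linarith)) _
              · refine (hmax i hi).trans ?_
                rw [hpZ]
                exact one_div_le_one_div_of_le (by positivity) (pow_le_pow_right₀ hZ1 (by
                  rw [hW]; omega))
          _ = B ^ k₁ / Z := by rw [mul_pow, ← pow_mul, pow_succ]; field_simp
          _ ≤ 1 := by rw [div_le_one (by linarith)]; linarith
      have hi₀' : i₀ ∉ N Y := by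
        intro hmem
        obtain ⟨Q, hQ, hQB, q, hq, -, hqB, hqs⟩ := key Y hY₀ i₀ hmem
        obtain ⟨-, -, hpi, -, hpB, -⟩ := hp i₀ hi₀
        have hqp : ‖vl (pu z (fr z (a i₀) (b i₀))) q‖ < e i₀ := by
          rw [hpZ]
          refine hqs.trans_le (one_div_le_one_div_of_le (by positivity) ?_)
          exact pow_le_pow_left₀ hZ0.le hZY.le _
        have hass : ¬ Associated (p i₀) q := fun h => by
          have h7 := vl_assoc (pu z (fr z (a i₀) (b i₀))) (p i₀) q h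
          rw [← h7, he] at hqp
          exact lt_irrefl _ hqp
        have h3 := hsep' i₀ (p i₀) q hpi hq hass (B * Y)
          (one_le_mul_of_one_le_of_one_le hB hY1)
          (hpB.mono (mul_le_mul_of_nonneg_left hHY (by linarith))) hqB
        have h8 : ‖vl (pu z (fr z (a i₀) (b i₀))) (p i₀)‖ = e i₀ := by rw [he]
        rw [h8, max_eq_left hqp.le, hpZ] at h3
        have h4 : (B * Y) ^ κ₂ * (1 / Z ^ W) ≤ B ^ κ₂ / Z := by
          calc (B * Y) ^ κ₂ * (1 / Z ^ W) ≤ (B * Z ^ A) ^ κ₂ * (1 / Z ^ (A * κ₂ + 1)) := by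
                refine mul_le_mul ?_ ?_ (by positivity) (by positivity)
                · exact pow_le_pow_left₀ (by positivity)
                    (mul_le_mul_of_nonneg_left hYA (by linarith)) _
                · exact one_div_le_one_div_of_le (by positivity) (pow_le_pow_right₀ hZ1 (by
                    rw [hW]; omega))
            _ = B ^ κ₂ / Z := by rw [mul_pow, ← pow_mul, pow_succ]; field_simp
        have h6 : B ^ κ₂ / Z < c₂ := by
          rw [div_lt_iff₀ hZ0]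
          have h7 : B ^ κ₂ / c₂ < Z := by linarith
          rw [div_lt_iff₀ hc₂] at h7
          linarith
        linarith
      rw [← hcard]
      refine Set.ncard_lt_ncard ⟨hsub, fun h => hi₀' (h ((hSN i₀).1 hi₀))⟩

end Pool.Agent.H488.S
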