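import Pool.Agent.H488.S.Dich

/-!
# Linear forms and monomials in general position
-/

set_option autoImplicit false
set_option linter.unusedSectionVars false

namespace Pool.Agent.H488.S

open Pool.Agent.H488.M (vl)

variable {σ τ ε ι : Type} [Fintype σ] [Fintype τ] [Fintype ε] [Fintype ι]

/-- a linear form -/
noncomputable def lf (v : τ ⊕ σ → ℤ) : MvPolynomial (τ ⊕ (σ ⊕ ε)) ℤ :=
  ∑ j, MvPolynomial.C (v j) * MvPolynomial.X (em j)

omit [Fintype ε] in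
lemma em_inj : Function.Injective (em : τ ⊕ σ → τ ⊕ (σ ⊕ ε)) :=
  Sum.map_injective.2 ⟨Function.injective_id, Sum.inl_injective⟩

omit [Fintype ε] in
lemma gr_lf (z : τ ⊕ (σ ⊕ ε) → ℂ) (v : τ ⊕ σ → ℤ) (j : τ ⊕ σ) : gr z (lf v) 1 j = (v j : ℂ) := by
  classical
  rw [gr]
  have h1 : MvPolynomial.pderiv (em j) (1 : MvPolynomial (τ ⊕ (σ ⊕ ε)) ℤ) = 0 :=
    MvPolynomial.pderiv_one
  rw [h1, mul_zero, sub_zero, one_mul, lf, map_sum, map_sum]
  rw [Finset.sum_eq_single j]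
  · rw [Derivation.leibniz, MvPolynomial.pderiv_X_self, MvPolynomial.pderiv_C]
    simp
  · intro i _ hij
    rw [Derivation.leibniz, MvPolynomial.pderiv_C, MvPolynomial.pderiv_X_of_ne
      (fun h => hij (em_inj h))]
    simp
  · intro h
    exact absurd (Finset.mem_univ j) h

omit [Fintype ε] in
lemma vl_lf (z : τ ⊕ (σ ⊕ ε) → ℂ) (v : τ ⊕ σ → ℤ) : vl z (lf v) = ∑ j, (v j : ℂ) * z (em j) := by
  rw [vl, lf, map_sum]
  refine Finset.sum_congr rfl fun j _ => ?_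
  rw [map_mul, MvPolynomial.aeval_X, MvPolynomial.aeval_C]
  simp

/-- **linear forms in general position** -/
theorem gp_lf (z : τ ⊕ (σ ⊕ ε) → ℂ) (v : ι → τ ⊕ σ → ℤ)
    (hv : ∀ S : Finset ι, S.card = Fintype.card τ + 1 →
      LinearIndependent ℂ fun (i : S) (j : τ ⊕ σ) => (v i j : ℂ)) :
    Gp z (fun i => lf (v i)) (fun _ => 1) := by
  refine ⟨fun i => by rw [M.vl_one]; exact one_ne_zero, fun S hS => ?_⟩
  have h1 : (fun i : S => gr z (lf (v i)) 1) = fun (i : S) (j : τ ⊕ σ) => (v i j : ℂ) := by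
    funext i j
    exact gr_lf z (v i) j
  rw [h1]
  exact hv S hS

/-- a monomial -/
noncomputable def mo (m : τ ⊕ σ → ℕ) : MvPolynomial (τ ⊕ (σ ⊕ ε)) ℤ :=
  ∏ j, MvPolynomial.X (em j) ^ m j

omit [Fintype ε] in
lemma vl_mo (z : τ ⊕ (σ ⊕ ε) → ℂ) (m : τ ⊕ σ → ℕ) : vl z (mo m) = ∏ j, z (em j) ^ m j := by
  rw [vl, mo, map_prod]
  refine Finset.prod_congr rfl fun j _ => ?_
  rw [map_pow, MvPolynomial.aeval_X]

omit [Fintype ε] in
lemma pd_mo (z : τ ⊕ (σ ⊕ ε) → ℂ) (m : τ ⊕ σ → ℕ) (j : τ ⊕ σ) :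
    z (em j) * vl z (MvPolynomial.pderiv (em j) (mo m)) = m j * vl z (mo m) := by
  classical
  have h0 : (mo m : MvPolynomial (τ ⊕ (σ ⊕ ε)) ℤ) =
      (∏ i ∈ Finset.univ.erase j, MvPolynomial.X (em i) ^ m i) * MvPolynomial.X (em j) ^ m j := by
    rw [mo, Finset.prod_erase_mul _ _ (Finset.mem_univ j)]
  have h1 : MvPolynomial.pderiv (em j) (∏ i ∈ Finset.univ.erase j,
      MvPolynomial.X (em i) ^ m i : MvPolynomial (τ ⊕ (σ ⊕ ε)) ℤ) = 0 := by
    apply MvPolynomial.pderiv_eq_zero_of_notMem_vars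
    intro hmem
    have h2 := MvPolynomial.vars_prod (s := Finset.univ.erase j)
      (fun i => (MvPolynomial.X (em i) ^ m i : MvPolynomial (τ ⊕ (σ ⊕ ε)) ℤ)) hmem
    rw [Finset.mem_biUnion] at h2
    obtain ⟨i, hi, h3⟩ := h2
    have h4 := MvPolynomial.vars_pow _ _ h3
    rw [MvPolynomial.vars_X, Finset.mem_singleton] at h4
    exact (Finset.mem_erase.1 hi).1 (em_inj h4).symm
  have h5 : MvPolynomial.pderiv (em j) (mo m : MvPolynomial (τ ⊕ (σ ⊕ ε)) ℤ) =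
      (∏ i ∈ Finset.univ.erase j, MvPolynomial.X (em i) ^ m i) *
        ((m j : MvPolynomial (τ ⊕ (σ ⊕ ε)) ℤ) * MvPolynomial.X (em j) ^ (m j - 1)) := by
    rw [h0, Derivation.leibniz, h1, smul_zero, add_zero, Derivation.leibniz_pow,
      MvPolynomial.pderiv_X_self]
    simp only [smul_eq_mul, nsmul_eq_mul]
    ring
  rw [h5, M.vl_mul]
  have h6 : vl z (mo m) = vl z (∏ i ∈ Finset.univ.erase j,
      MvPolynomial.X (em i) ^ m i : MvPolynomial (τ ⊕ (σ ⊕ ε)) ℤ) * z (em j) ^ m j := by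
    rw [h0, M.vl_mul]
    congr 1
    rw [vl, map_pow, MvPolynomial.aeval_X]
  rw [h6]
  have h7 : vl z ((m j : MvPolynomial (τ ⊕ (σ ⊕ ε)) ℤ) * MvPolynomial.X (em j) ^ (m j - 1)) =
      m j * z (em j) ^ (m j - 1) := by
    rw [vl, map_mul, map_pow, MvPolynomial.aeval_X, map_natCast]
  rw [h7]
  rcases Nat.eq_zero_or_pos (m j) with h8 | h8
  · rw [h8]; simp
  · have h9 : z (em j) ^ m j = z (em j) * z (em j) ^ (m j - 1) := by
      rw [← pow_succ']; congr 1; omega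
    rw [h9]; ring

omit [Fintype ε] in
lemma vl_mo_ne (z : τ ⊕ (σ ⊕ ε) → ℂ) (hz : ∀ j : τ ⊕ σ, z (em j) ≠ 0) (m : τ ⊕ σ → ℕ) :
    vl z (mo m) ≠ 0 := by
  rw [vl_mo]
  exact Finset.prod_ne_zero_iff.2 fun j _ => pow_ne_zero _ (hz j)

omit [Fintype ε] in
lemma gr_mo (z : τ ⊕ (σ ⊕ ε) → ℂ) (hz : ∀ j : τ ⊕ σ, z (em j) ≠ 0) (m n : τ ⊕ σ → ℕ) (j : τ ⊕ σ) :
    gr z (mo m) (mo n) j = vl z (mo m) * vl z (mo n) * (((m j : ℤ) - n j : ℤ) : ℂ) / z (em j) := by
  rw [eq_div_iff (hz j), gr]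
  change vl z _ * z (em j) = _
  have h1 := pd_mo z m j
  have h2 := pd_mo z n j
  have h3 : vl z (mo n * MvPolynomial.pderiv (em j) (mo m) -
      mo m * MvPolynomial.pderiv (em j) (mo n)) = vl z (mo n) * vl z (MvPolynomial.pderiv (em j) (mo m)) -
      vl z (mo m) * vl z (MvPolynomial.pderiv (em j) (mo n)) := by
    rw [← M.vl_mul, ← M.vl_mul, vl, vl, vl, map_sub]
  rw [h3]
  push_cast
  linear_combination vl z (mo n) * h1 - vl z (mo m) * h2

/-- **monomials in general position** -/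
theorem gp_mo (z : τ ⊕ (σ ⊕ ε) → ℂ) (hz : ∀ j : τ ⊕ σ, z (em j) ≠ 0) (v : ι → τ ⊕ σ → ℤ)
    (hv : ∀ S : Finset ι, S.card = Fintype.card τ + 1 →
      LinearIndependent ℂ fun (i : S) (j : τ ⊕ σ) => (v i j : ℂ)) :
    Gp z (fun i => mo fun j => (v i j).toNat) (fun i => mo fun j => (-v i j).toNat) := by
  classical
  refine ⟨fun i => vl_mo_ne z hz _, fun S hS => ?_⟩
  rw [Fintype.linearIndependent_iff]
  intro g hg i
  have h1 := hv S hS
  rw [Fintype.linearIndependent_iff] at h1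
  have h2 := h1 (fun i => g i * (vl z (mo fun j => (v i j).toNat) *
    vl z (mo fun j => (-v i j).toNat))) (by
      funext j
      have h3 := congrFun hg j
      simp only [Finset.sum_apply, Pi.smul_apply, smul_eq_mul, Pi.zero_apply] at h3 ⊢
      have h4 : ∀ i : S, g i * gr z (mo fun j => (v i j).toNat) (mo fun j => (-v i j).toNat) j =
          (g i * (vl z (mo fun j => (v i j).toNat) * vl z (mo fun j => (-v i j).toNat)) *
            (v i j : ℂ)) / z (em j) := by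
        intro i
        rw [gr_mo z hz]
        have h5 : (((v i j).toNat : ℤ) - ((-v i j).toNat : ℤ) : ℤ) = v i j := by omega
        rw [h5]
        ring
      rw [Finset.sum_congr rfl fun i _ => h4 i, ← Finset.sum_div] at h3
      rcases div_eq_zero_iff.1 h3 with h6 | h6
      · exact h6
      · exact absurd h6 (hz j)) i
  rcases mul_eq_zero.1 h2 with h3 | h3
  · exact h3
  · exact absurd h3 (mul_ne_zero (vl_mo_ne z hz _) (vl_mo_ne z hz _))

omit [Fintype ε] in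
lemma fr_mo (z : τ ⊕ (σ ⊕ ε) → ℂ) (hz : ∀ j : τ ⊕ σ, z (em j) ≠ 0) (v : τ ⊕ σ → ℤ) :
    fr z (mo fun j => (v j).toNat) (mo fun j => (-v j).toNat) = ∏ j, z (em j) ^ v j := by
  rw [fr, vl_mo, vl_mo, ← Finset.prod_div_distrib]
  refine Finset.prod_congr rfl fun j _ => ?_
  rw [← zpow_natCast, ← zpow_natCast, ← zpow_sub₀ (hz j)]
  congr 1
  omega

omit [Fintype ε] in
lemma fr_lf (z : τ ⊕ (σ ⊕ ε) → ℂ) (v : τ ⊕ σ → ℤ) : fr z (lf v) 1 = ∑ j, (v j : ℂ) * z (em j) := by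
  rw [fr, M.vl_one, div_one, vl_lf]

end Pool.Agent.H488.S
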